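import Pool.Agent.Helper11.OWN.Dens

/-! MP_27c4f6_nt, Q1: large values of the Liouville correlation sums have positive lower logarithmic
density, even for sums over intervals of bounded length. -/

set_option autoImplicit false

namespace Pool.Agent.Results.MP_27c4f6_nt.PositiveDensity

/-- The Liouville function `λ(n) = (-1)^Ω(n)`. -/
def liouville (n : ℕ) : ℤ := (-1) ^ ArithmeticFunction.cardFactors n

/-- `S_h(N) = ∑_{1 ≤ n ≤ N} λ(n) λ(n+h)`. -/
def S (h N : ℕ) : ℤ := ∑ n ∈ Finset.Icc 1 N, liouville n * liouville (n + h)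

open Classical in
/-- For every `h ≥ 1` and every `C` there are `H`, `δ > 0`, `X₀` such that for all `X ≥ X₀`
(first) the sum of `1/n` over the `n ≤ X` for which some sum of `λ(m) λ(m+h)` over
`n < m ≤ n + L`, `L ≤ H`, exceeds `C` in absolute value is at least `δ log X`, and (second) the sum of
`1/N` over the `N ≤ X` with `|S_h(N)| > C` is at least `δ log X`. -/
theorem result (h : ℕ) (hh : 1 ≤ h) (C : ℤ) :
    ∃ (H : ℕ) (δ : ℝ), 0 < δ ∧ ∃ X₀ : ℕ, ∀ X : ℕ, X₀ ≤ X →
      δ * Real.log X ≤ ∑ n ∈ (Finset.Icc 1 X).filter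
        (fun n => ∃ L ≤ H, C < |∑ m ∈ Finset.Ioc n (n + L), liouville m * liouville (m + h)|),
          (1 / n : ℝ) ∧
      δ * Real.log X ≤ ∑ N ∈ (Finset.Icc 1 X).filter (fun N => C < |S h N|), (1 / N : ℝ) := by
  obtain ⟨H, δ, hδ, X₀, hX⟩ := Pool.Agent.Helper11.OWN.main_dens h hh C
  refine ⟨H, δ, hδ, X₀, fun X hXX => ?_⟩
  obtain ⟨h1, h2⟩ := hX X hXX
  constructor
  · refine h1.trans (le_of_eq ?_)
    rw [Finset.sum_filter]
    refine Finset.sum_congr rfl fun n _ => ?_
    by_cases hn : n ∈ Pool.Agent.Helper11.OWN.VA h C H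
    · rw [if_pos hn]; exact (if_pos hn).symm
    · rw [if_neg hn, zero_div]; exact (if_neg hn).symm
  · refine h2.trans (le_of_eq ?_)
    rw [Finset.sum_filter]
    refine Finset.sum_congr rfl fun n _ => ?_
    by_cases hn : n ∈ Pool.Agent.Helper11.OWN.VB h C
    · rw [if_pos hn]; exact (if_pos hn).symm
    · rw [if_neg hn, zero_div]; exact (if_neg hn).symm

end Pool.Agent.Results.MP_27c4f6_nt.PositiveDensity
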